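import Pool.Agent.Run7.h567.PD.Iface

/-!
Project PD (helper567), piece MEAS: an algebraic condition on a set of positive measure.
-/

set_option autoImplicit false

namespace Run7.h993.PD

open MeasureTheory Topology Filter
open scoped Pointwise

section

variable {Γ : Type} [Group Γ] {E : Type} [Field E]

/-- the zero set of an ideal -/
def Zs {A : Subalgebra E (Γ → E)} (I : Ideal A) : Set Γ := {x | ∀ f ∈ I, f.1 x = 0}

theorem Zs_anti {A : Subalgebra E (Γ → E)} {I J : Ideal A} (h : I ≤ J) : Zs J ⊆ Zs I :=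
  fun _ hx f hf => hx f (h hf)

/-- translation of functions -/
def lam {A : Subalgebra E (Γ → E)} (hA : ∀ f ∈ A, ∀ g, (fun x => f (g * x)) ∈ A) (g : Γ) :
    A →+* A where
  toFun f := ⟨fun x => f.1 (g * x), hA f.1 f.2 g⟩
  map_one' := rfl
  map_mul' _ _ := rfl
  map_zero' := rfl
  map_add' _ _ := rfl

theorem lam_apply {A : Subalgebra E (Γ → E)} (hA : ∀ f ∈ A, ∀ g, (fun x => f (g * x)) ∈ A) (g : Γ)
    (f : A) (x : Γ) : (lam hA g f).1 x = f.1 (g * x) := rfl

theorem lam_lam {A : Subalgebra E (Γ → E)} (hA : ∀ f ∈ A, ∀ g, (fun x => f (g * x)) ∈ A) (g h : Γ)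
    (f : A) : lam hA g (lam hA h f) = lam hA (h * g) f := by
  apply Subtype.ext
  funext x
  rw [lam_apply, lam_apply, lam_apply, mul_assoc]

theorem lam_one {A : Subalgebra E (Γ → E)} (hA : ∀ f ∈ A, ∀ g, (fun x => f (g * x)) ∈ A)
    (f : A) : lam hA 1 f = f := by
  apply Subtype.ext
  funext x
  rw [lam_apply, one_mul]

theorem Zs_comap {A : Subalgebra E (Γ → E)} (hA : ∀ f ∈ A, ∀ g, (fun x => f (g * x)) ∈ A) (g : Γ)
    (I : Ideal A) : Zs (Ideal.comap (lam hA g) I) = g • Zs I := by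
  ext x
  rw [Set.mem_smul_set_iff_inv_smul_mem, smul_eq_mul]
  constructor
  · intro hx f hf
    have h1 : lam hA g (lam hA g⁻¹ f) = f := by
      rw [lam_lam, inv_mul_cancel, lam_one]
    have h2 : lam hA g⁻¹ f ∈ Ideal.comap (lam hA g) I := by
      rw [Ideal.mem_comap, h1]
      exact hf
    exact hx _ h2
  · intro hx f hf
    have h1 := hx _ (Ideal.mem_comap.mp hf)
    rw [lam_apply, mul_inv_cancel_left] at h1
    exact h1

theorem Zs_sup {A : Subalgebra E (Γ → E)} (I J : Ideal A) : Zs (I ⊔ J) = Zs I ∩ Zs J := by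
  ext x
  constructor
  · intro hx
    exact ⟨Zs_anti le_sup_left hx, Zs_anti le_sup_right hx⟩
  · rintro ⟨h1, h2⟩ f hf
    obtain ⟨a, ha, b, hb, rfl⟩ := Submodule.mem_sup.mp hf
    have h3 : (a + b : A).1 x = a.1 x + b.1 x := rfl
    rw [h3, h1 a ha, h2 b hb, add_zero]

end

theorem t_MEAS : Run7.h567.PD.S_MEAS := by
  intro Γ _ _ _ _ _ _ _ μ _ E _ _ _ A hN hc hA f hf hμ
  obtain ⟨I, ⟨hfI, hI⟩, hmax⟩ := set_has_maximal_iff_noetherian.mpr hN
    {I : Ideal A | (⟨f, hf⟩ : A) ∈ I ∧ μ (Zs I) ≠ 0} ⟨Ideal.span {⟨f, hf⟩}, Ideal.subset_span rfl, by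
      intro h0
      apply hμ
      refine measure_mono_null ?_ h0
      intro x hx k hk
      obtain ⟨a, rfl⟩ := Ideal.mem_span_singleton'.mp hk
      have h3 : (a * (⟨f, hf⟩ : A) : A).1 x = a.1 x * f x := rfl
      rw [h3, Set.mem_setOf_eq.mp hx, mul_zero]⟩
  have hmax' : ∀ J : Ideal A, I ≤ J → μ (Zs J) ≠ 0 → J = I := by
    intro J h1 h2
    by_contra h3
    exact hmax J ⟨h1 hfI, h2⟩ (lt_of_le_of_ne h1 (Ne.symm h3))
  have hcl : IsClosed (Zs I) := by
    have h1 : Zs I = ⋂ k : I, {x | k.1.1 x = 0} := by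
      ext x
      rw [Set.mem_iInter]
      exact ⟨fun h k => h k.1 k.2, fun h k hk => h ⟨k, hk⟩⟩
    rw [h1]
    exact isClosed_iInter fun k => (isClosed_singleton (x := (0 : E))).preimage (hc k.1.1 k.1.2)
  have hsub : ∀ g : Γ, μ (g • Zs I ∩ Zs I) ≠ 0 → Ideal.comap (lam hA g) I ≤ I := by
    intro g hg
    have h1 : Zs (Ideal.comap (lam hA g) I ⊔ I) = g • Zs I ∩ Zs I := by
      rw [Zs_sup, Zs_comap]
    have h2 := hmax' (Ideal.comap (lam hA g) I ⊔ I) le_sup_right (by rw [h1]; exact hg)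
    exact le_sup_left.trans h2.le
  have hinc : ∀ g : Γ, μ (g • Zs I ∩ Zs I) ≠ 0 → Zs I ⊆ g • Zs I := by
    intro g hg
    rw [← Zs_comap hA]
    exact Zs_anti (hsub g hg)
  have hstab : ∀ g : Γ, μ (g • Zs I ∩ Zs I) ≠ 0 → g • Zs I = Zs I := by
    intro g hg
    refine Set.Subset.antisymm ?_ (hinc g hg)
    have h1 : μ (g⁻¹ • Zs I ∩ Zs I) ≠ 0 := by
      have h2 : g⁻¹ • Zs I ∩ Zs I = g⁻¹ • (g • Zs I ∩ Zs I) := by
        rw [Set.smul_set_inter, inv_smul_smul, Set.inter_comm]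
      rw [h2, measure_smul μ]
      exact hg
    have h3 := hinc _ h1
    have h4 := Set.smul_set_mono (a := g) h3
    rwa [smul_inv_smul] at h4
  set S : Subgroup Γ := MulAction.stabilizer Γ (Zs I) with hS
  have hSc : IsClosed (S : Set Γ) := by
    have h1 : (S : Set Γ) = (⋂ x : Zs I, {g | g * x.1 ∈ Zs I}) ∩ (⋂ x : Zs I, {g | g⁻¹ * x.1 ∈ Zs I}) := by
      ext g
      simp only [SetLike.mem_coe, Set.mem_inter_iff, Set.mem_iInter, Set.mem_setOf_eq, hS,
        MulAction.mem_stabilizer_iff]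
      constructor
      · intro h
        refine ⟨fun x => ?_, fun x => ?_⟩
        · have h2 : g • x.1 ∈ g • Zs I := Set.smul_mem_smul_set x.2
          rwa [h] at h2
        · have h2 : x.1 ∈ g • Zs I := by
            rw [h]
            exact x.2
          exact Set.mem_smul_set_iff_inv_smul_mem.mp h2
      · rintro ⟨h2, h3⟩
        apply Set.Subset.antisymm
        · rintro _ ⟨x, hx, rfl⟩
          exact h2 ⟨x, hx⟩
        · intro x hx
          exact Set.mem_smul_set_iff_inv_smul_mem.mpr (h3 ⟨x, hx⟩)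
    rw [h1]
    refine IsClosed.inter (isClosed_iInter fun x => ?_) (isClosed_iInter fun x => ?_)
    · exact hcl.preimage (continuous_id.mul continuous_const)
    · exact hcl.preimage (continuous_inv.mul continuous_const)
  have hfin : Finite (Γ ⧸ S) := by
    have h1 : Set.Finite {q : Γ ⧸ S | μ (Zs I) ≤ μ (q.out • Zs I)} := by
      refine Measure.finite_const_le_meas_of_disjoint_iUnion₀ μ (pos_iff_ne_zero.mpr hI)
        (fun q => ((hcl.smul q.out).measurableSet).nullMeasurableSet) ?_ ?_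
      · intro q q' hqq'
        change μ (q.out • Zs I ∩ q'.out • Zs I) = 0
        by_contra h0
        have h2 : μ ((q'.out⁻¹ * q.out) • Zs I ∩ Zs I) ≠ 0 := by
          have h3 : (q'.out⁻¹ * q.out) • Zs I ∩ Zs I =
              q'.out⁻¹ • (q.out • Zs I ∩ q'.out • Zs I) := by
            rw [Set.smul_set_inter, inv_smul_smul, mul_smul]
          rw [h3, measure_smul μ]
          exact h0
        have h4 : q'.out⁻¹ * q.out ∈ S := MulAction.mem_stabilizer_iff.mpr (hstab _ h2)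
        have h5 := QuotientGroup.eq.mpr h4
        rw [QuotientGroup.out_eq', QuotientGroup.out_eq'] at h5
        exact hqq' h5.symm
      · exact measure_ne_top μ _
    have h2 : {q : Γ ⧸ S | μ (Zs I) ≤ μ (q.out • Zs I)} = Set.univ := by
      ext q
      simp only [Set.mem_setOf_eq, Set.mem_univ, iff_true]
      rw [measure_smul μ]
    rw [h2] at h1
    exact Set.finite_univ_iff.mp h1
  have hFI : S.FiniteIndex := Subgroup.finiteIndex_of_finite_quotient
  have hop : IsOpen (S : Set Γ) := Subgroup.isOpen_of_isClosed_of_finiteIndex S hSc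
  obtain ⟨z, hz⟩ := nonempty_of_measure_ne_zero hI
  refine ⟨S, hop, z, fun s hs => ?_⟩
  have h1 : s • z ∈ s • Zs I := Set.smul_mem_smul_set hz
  rw [MulAction.mem_stabilizer_iff.mp hs] at h1
  exact h1 ⟨f, hf⟩ hfI

end Run7.h993.PD
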